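import Pool.Agent.Lib.MP_8251dc_co.Inv

/-!
# The double generating function of the numbers of regular matrices: definitions
-/

set_option autoImplicit false

open Finset

namespace RegBool

/-- Power series in `y` whose coefficients are power series in `x`, over the rationals. -/
abbrev PS : Type := PowerSeries (PowerSeries ℚ)

/-- The double exponential generating function `∑ F(m, n) x^m y^n / (m! n!)`. -/
noncomputable def egf (F : ℕ → ℕ → ℚ) : PS :=
  PowerSeries.mk fun n => PowerSeries.mk fun m => F m n / ((m.factorial : ℚ) * (n.factorial : ℚ))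

/-- The variable `x`. -/
noncomputable def xx : PS := PowerSeries.C PowerSeries.X

/-- The variable `y`. -/
noncomputable def yy : PS := PowerSeries.X

/-- `exp(-x)`. -/
noncomputable def ex : PS :=
  PowerSeries.C (PowerSeries.mk fun k => (-1 : ℚ) ^ k / (k.factorial : ℚ))

/-- `exp(-y)`. -/
noncomputable def ey : PS :=
  PowerSeries.mk fun k => PowerSeries.C ((-1 : ℚ) ^ k / (k.factorial : ℚ))

/-- `κ = x + y + (1 - exp(-x)) (1 - exp(-y))`. -/
noncomputable def kappa : PS := xx + yy + (1 - ex) * (1 - ey)

/-- `exp(x)`. -/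
noncomputable def px : PS := PowerSeries.C (PowerSeries.exp ℚ)

/-- `exp(y)`. -/
noncomputable def py : PS := PowerSeries.exp (PowerSeries ℚ)

/-- The coefficient of `x^m y^n`. -/
noncomputable def cc (m n : ℕ) (F : PS) : ℚ := PowerSeries.coeff m (PowerSeries.coeff n F)

theorem cc_egf (F : ℕ → ℕ → ℚ) (m n : ℕ) :
    cc m n (egf F) = F m n / ((m.factorial : ℚ) * (n.factorial : ℚ)) := by
  simp [cc, egf]

theorem PS_ext {F G : PS} (h : ∀ m n, cc m n F = cc m n G) : F = G :=
  PowerSeries.ext fun n => PowerSeries.ext fun m => h m n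

theorem cc_mul (m n : ℕ) (F G : PS) : cc m n (F * G) =
    ∑ b ∈ antidiagonal n, ∑ a ∈ antidiagonal m, cc a.1 b.1 F * cc a.2 b.2 G := by
  unfold cc
  rw [PowerSeries.coeff_mul, map_sum]
  exact sum_congr rfl fun b _ => by rw [PowerSeries.coeff_mul]

theorem cc_add (m n : ℕ) (F G : PS) : cc m n (F + G) = cc m n F + cc m n G := by
  simp [cc]

theorem cc_sub (m n : ℕ) (F G : PS) : cc m n (F - G) = cc m n F - cc m n G := by
  simp [cc]

end RegBool
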