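import Pool.Agent.Lib.MP_8251dc_co.Curve.CDefs

set_option autoImplicit false

open Finset

namespace RegBool

/-- `exp(-x)` in one variable. -/
private noncomputable def CHit_em : PowerSeries ℚ :=
  PowerSeries.mk fun k => (-1 : ℚ) ^ k / (k.factorial : ℚ)

private theorem CHit_em_eq : CHit_em = PowerSeries.rescale (-1 : ℚ) (PowerSeries.exp ℚ) := by
  ext k
  rw [PowerSeries.coeff_rescale, PowerSeries.coeff_exp]
  simp [CHit_em, div_eq_mul_inv]

private theorem CHit_em_pow (j : ℕ) :
    CHit_em ^ j = PowerSeries.rescale (-(j : ℚ)) (PowerSeries.exp ℚ) := by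
  rw [CHit_em_eq, ← map_pow, PowerSeries.exp_pow_eq_rescale_exp, PowerSeries.rescale_rescale]
  congr 2
  ring

private theorem CHit_coeff (m u r : ℕ) :
    PowerSeries.coeff m (PowerSeries.exp ℚ ^ u * (1 - CHit_em) ^ r) =
      (hit m u r : ℚ) / (m.factorial : ℚ) := by
  have h1 : (1 - CHit_em) ^ r = ∑ j ∈ range (r + 1),
      PowerSeries.C ((-1 : ℚ) ^ j * (r.choose j : ℚ)) * CHit_em ^ j := by
    rw [sub_eq_neg_add, add_pow]
    refine sum_congr rfl fun j _ => ?_
    rw [one_pow, mul_one, neg_pow, map_mul, map_pow, map_neg, map_one, map_natCast]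
    ring
  rw [h1, mul_sum, map_sum]
  unfold hit
  push_cast
  rw [sum_div]
  refine sum_congr rfl fun j _ => ?_
  have h2 : PowerSeries.exp ℚ ^ u * (PowerSeries.C ((-1 : ℚ) ^ j * (r.choose j : ℚ)) * CHit_em ^ j) =
      PowerSeries.C ((-1 : ℚ) ^ j * (r.choose j : ℚ)) *
        PowerSeries.rescale ((u : ℚ) + -(j : ℚ)) (PowerSeries.exp ℚ) := by
    rw [← PowerSeries.exp_mul_exp_eq_exp_add, CHit_em_pow, PowerSeries.exp_pow_eq_rescale_exp]
    ring
  rw [h2, PowerSeries.coeff_C_mul, PowerSeries.coeff_rescale, PowerSeries.coeff_exp]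
  simp only [map_div₀, map_one, map_natCast]
  ring

private theorem CHit_cc (m n : ℕ) (f g : PowerSeries ℚ) :
    cc m n (PowerSeries.C f * PowerSeries.map PowerSeries.C g) =
      PowerSeries.coeff m f * PowerSeries.coeff n g := by
  unfold cc
  rw [PowerSeries.coeff_C_mul, PowerSeries.coeff_map, PowerSeries.coeff_mul_C]

theorem cc_hit (m n u r : ℕ) :
    cc m n ((px * py) ^ u * ((1 - ex) * (1 - ey)) ^ r) =
      (hit m u r : ℚ) * (hit n u r : ℚ) / ((m.factorial : ℚ) * (n.factorial : ℚ)) := by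
  have hey : ey = PowerSeries.map PowerSeries.C CHit_em := by
    ext k
    simp [ey, CHit_em]
  have hex : ex = PowerSeries.C CHit_em := rfl
  have hpy : py = PowerSeries.map PowerSeries.C (PowerSeries.exp ℚ) := by
    ext1 k
    rw [py, PowerSeries.coeff_exp, PowerSeries.coeff_map, PowerSeries.coeff_exp]
    rfl
  have hpx : px = PowerSeries.C (PowerSeries.exp ℚ) := rfl
  have hF : (px * py) ^ u * ((1 - ex) * (1 - ey)) ^ r =
      PowerSeries.C (PowerSeries.exp ℚ ^ u * (1 - CHit_em) ^ r) *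
        PowerSeries.map PowerSeries.C (PowerSeries.exp ℚ ^ u * (1 - CHit_em) ^ r) := by
    rw [hey, hex, hpy, hpx, mul_pow, mul_pow]
    simp only [map_mul, map_pow, map_sub, map_one]
    exact mul_mul_mul_comm _ _ _ _
  rw [hF, CHit_cc, CHit_coeff, CHit_coeff]
  field_simp

end RegBool
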