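import Pool.Agent.Lib.MP_8251dc_co.Curve.CDefs

set_option autoImplicit false

open Finset

namespace RegBool

theorem cc_mul_xx_succ (m n : ℕ) (F : PS) : cc (m + 1) n (F * xx) = cc m n F := by
  unfold cc xx
  rw [PowerSeries.coeff_mul_C, PowerSeries.coeff_succ_mul_X]

theorem cc_mul_xx_zero (n : ℕ) (F : PS) : cc 0 n (F * xx) = 0 := by
  unfold cc xx
  rw [PowerSeries.coeff_mul_C, PowerSeries.coeff_zero_mul_X]

theorem cc_mul_yy_succ (m n : ℕ) (F : PS) : cc m (n + 1) (F * yy) = cc m n F := by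
  unfold cc yy
  rw [PowerSeries.coeff_succ_mul_X]

theorem cc_mul_yy_zero (m : ℕ) (F : PS) : cc m 0 (F * yy) = 0 := by
  unfold cc yy
  rw [PowerSeries.coeff_zero_mul_X, map_zero]

theorem cc_pxpy_pow (m n u : ℕ) : cc m n ((px * py) ^ u) =
    (u : ℚ) ^ m / (m.factorial : ℚ) * ((u : ℚ) ^ n / (n.factorial : ℚ)) := by
  unfold cc px py
  have h1 : (u : PowerSeries ℚ) ^ n * algebraMap ℚ (PowerSeries ℚ) (1 / (n.factorial : ℚ)) =
      PowerSeries.C ((u : ℚ) ^ n / (n.factorial : ℚ)) := by
    rw [PowerSeries.algebraMap_apply, Algebra.algebraMap_self, RingHom.id_apply,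
      ← map_natCast (PowerSeries.C (R := ℚ)) u, ← map_pow, ← map_mul]
    congr 1
    ring
  rw [mul_pow, ← map_pow, PowerSeries.coeff_C_mul, PowerSeries.exp_pow_eq_rescale_exp,
    PowerSeries.exp_pow_eq_rescale_exp, PowerSeries.coeff_rescale, PowerSeries.coeff_exp, h1,
    PowerSeries.coeff_mul_C, PowerSeries.coeff_rescale, PowerSeries.coeff_exp]
  simp [div_eq_mul_inv]

theorem cc_pow (m n u r : ℕ) :
    cc m n ((px * py) ^ u * (xx + yy) ^ r) =
      if r ≤ m + n then ((m + n).choose m : ℚ) * (u : ℚ) ^ (m + n - r) / ((m + n - r).factorial : ℚ)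
      else 0 := by
  induction r generalizing m n with
  | zero =>
    rw [pow_zero, mul_one, if_pos (Nat.zero_le _), cc_pxpy_pow, Nat.sub_zero, pow_add]
    have h := Nat.add_choose_mul_factorial_mul_factorial m n
    rw [← Nat.choose_symm_add] at h
    have h' : ((m + n).choose m : ℚ) * (m.factorial : ℚ) * (n.factorial : ℚ) =
        ((m + n).factorial : ℚ) := by
      exact_mod_cast h
    have hm : (m.factorial : ℚ) ≠ 0 := by exact_mod_cast m.factorial_ne_zero
    have hn : (n.factorial : ℚ) ≠ 0 := by exact_mod_cast n.factorial_ne_zero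
    have hc : ((m + n).choose m : ℚ) ≠ 0 := by
      exact_mod_cast (Nat.choose_pos (Nat.le_add_right m n)).ne'
    rw [← h']
    field_simp
  | succ r ih =>
    have e : (px * py) ^ u * (xx + yy) ^ (r + 1) =
        (px * py) ^ u * (xx + yy) ^ r * xx + (px * py) ^ u * (xx + yy) ^ r * yy := by
      ring
    rw [e, cc_add]
    rcases m with _ | m <;> rcases n with _ | n
    · rw [cc_mul_xx_zero, cc_mul_yy_zero]
      simp
    · rw [cc_mul_xx_zero, cc_mul_yy_succ, ih]
      simp
    · rw [cc_mul_xx_succ, cc_mul_yy_zero, ih]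
      simp
    · rw [cc_mul_xx_succ, cc_mul_yy_succ, ih, ih]
      have e1 : m + (n + 1) = m + n + 1 := by ring
      have e2 : m + 1 + n = m + n + 1 := by ring
      have e3 : m + 1 + (n + 1) = m + n + 1 + 1 := by ring
      rw [e3, e1, e2, Nat.choose_succ_succ (m + n + 1) m, Nat.add_sub_add_right]
      by_cases h : r ≤ m + n + 1
      · rw [if_pos h, if_pos h, if_pos (by omega)]
        push_cast
        ring
      · rw [if_neg h, if_neg h, if_neg (by omega)]
        ring

end RegBool
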