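import Pool.Agent.Lib.MP_8251dc_co.Curve.CDefs

set_option autoImplicit false

open Finset

namespace RegBool

private theorem cu_xx_zero (n : ℕ) (Q : PS) : cc 0 n (xx * Q) = 0 := by
  unfold cc xx
  rw [PowerSeries.coeff_C_mul, PowerSeries.coeff_zero_X_mul]

private theorem cu_xx_succ (m n : ℕ) (Q : PS) : cc (m + 1) n (xx * Q) = cc m n Q := by
  unfold cc xx
  rw [PowerSeries.coeff_C_mul, PowerSeries.coeff_succ_X_mul]

private theorem cu_yy_zero (m : ℕ) (Q : PS) : cc m 0 (yy * Q) = 0 := by
  unfold cc yy
  rw [PowerSeries.coeff_zero_X_mul, map_zero]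

private theorem cu_yy_succ (m n : ℕ) (Q : PS) : cc m (n + 1) (yy * Q) = cc m n Q := by
  unfold cc yy
  rw [PowerSeries.coeff_succ_X_mul]

private theorem cu_W (m n : ℕ) (h : m = 0 ∨ n = 0) : cc m n ((1 - ex) * (1 - ey)) = 0 := by
  have h1 : (1 - ex : PS) = PowerSeries.C
      (1 - PowerSeries.mk fun k => (-1 : ℚ) ^ k / (k.factorial : ℚ)) := by
    rw [map_sub, map_one, ex]
  rw [h1]
  unfold cc
  rw [PowerSeries.coeff_C_mul]
  rcases h with rfl | rfl
  · rw [PowerSeries.coeff_zero_eq_constantCoeff_apply, map_mul]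
    simp
  · have h2 : PowerSeries.coeff 0 (1 - ey : PS) = 0 := by
      rw [ey]
      simp
    rw [h2, mul_zero, map_zero]

private theorem cu_Wmul (m n : ℕ) (Q : PS) (h : ∀ a b, a + b + 2 ≤ m + n → cc a b Q = 0) :
    cc m n ((1 - ex) * (1 - ey) * Q) = 0 := by
  rw [cc_mul]
  refine sum_eq_zero fun b hb => sum_eq_zero fun a ha => ?_
  rw [HasAntidiagonal.mem_antidiagonal] at ha hb
  by_cases h0 : a.1 = 0 ∨ b.1 = 0
  · rw [cu_W _ _ h0, zero_mul]
  · push Not at h0
    rw [h a.2 b.2 (by omega), mul_zero]

private theorem cu_kappa (m n : ℕ) (Q : PS) (h : ∀ a b, a + b + 2 ≤ m + n → cc a b Q = 0) :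
    cc m n (kappa * Q) = cc m n (xx * Q) + cc m n (yy * Q) := by
  rw [kappa, add_mul, add_mul, cc_add, cc_add, cu_Wmul m n Q h, add_zero]

/-- From the left. -/
private theorem cu_left (Q : PS) (d M : ℕ) (h : ∀ m n, m + n = d + 1 → n < M →
    cc m n (xx * Q) + cc m n (yy * Q) = 0) : ∀ n m, m + n = d → n < M → cc m n Q = 0 := by
  intro n
  induction n with
  | zero =>
    intro m hm hM
    have h1 := h (m + 1) 0 (by omega) hM
    rw [cu_xx_succ, cu_yy_zero, add_zero] at h1
    exact h1
  | succ n ih =>
    intro m hm hM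
    have h1 := h (m + 1) (n + 1) (by omega) hM
    rw [cu_xx_succ, cu_yy_succ, ih (m + 1) (by omega) (by omega), add_zero] at h1
    exact h1

/-- From the right. -/
private theorem cu_right (Q : PS) (d M : ℕ) (h : ∀ m n, m + n = d + 1 → m < M →
    cc m n (xx * Q) + cc m n (yy * Q) = 0) : ∀ m n, m + n = d → m < M → cc m n Q = 0 := by
  intro m
  induction m with
  | zero =>
    intro n hm hM
    have h1 := h 0 (n + 1) (by omega) hM
    rw [cu_xx_zero, cu_yy_succ, zero_add] at h1
    exact h1
  | succ m ih =>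
    intro n hm hM
    have h1 := h (m + 1) (n + 1) (by omega) hM
    rw [cu_xx_succ, cu_yy_succ, ih (n + 1) (by omega) (by omega), zero_add] at h1
    exact h1

/-- If the double generating functions of `F` and `G` are `1` modulo `κ`, and `F`, `G` agree at all
`(m, k)` with `m ≠ k`, `m + k ≤ 2 N`, then `F N N = G N N`. -/
theorem curve_unique (F G : ℕ → ℕ → ℚ) (hF : kappa ∣ egf F - 1) (hG : kappa ∣ egf G - 1) (N : ℕ)
    (h : ∀ m k, m ≠ k → m + k ≤ 2 * N → F m k = G m k) : F N N = G N N := by
  obtain ⟨Q, hQ⟩ : kappa ∣ egf F - egf G := by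
    have h1 := dvd_sub hF hG
    rwa [sub_sub_sub_cancel_right] at h1
  have hD : ∀ m k, cc m k (kappa * Q) = (F m k - G m k) /
      ((m.factorial : ℚ) * (k.factorial : ℚ)) := by
    intro m k
    rw [← hQ, cc_sub, cc_egf, cc_egf, sub_div]
  induction N using Nat.strong_induction_on with
  | _ N ih =>
    have hlow : ∀ m k, m + k < 2 * N → F m k = G m k := by
      intro m k hmk
      by_cases e : m = k
      · subst e
        exact ih m (by omega) fun a b hab hle => h a b hab (by omega)
      · exact h m k e (by omega)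
    -- the coefficients of low degree vanish
    have hQ0 : ∀ d, d + 2 ≤ 2 * N → ∀ a b, a + b = d → cc a b Q = 0 := by
      intro d
      induction d using Nat.strong_induction_on with
      | _ d ihd =>
        intro hd a b hab
        refine cu_left Q d (d + 2) (fun m n hmn _ => ?_) b a hab (by omega)
        rw [← cu_kappa m n Q (fun a b hab => ihd (a + b) (by omega) (by omega) a b rfl), hD,
          hlow m n (by omega), sub_self, zero_div]
    have hQ1 : ∀ a b, a + b + 2 ≤ 2 * N → cc a b Q = 0 := fun a b hab => hQ0 (a + b) hab a b rfl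
    have hfin : cc N N (kappa * Q) = 0 := by
      rw [cu_kappa N N Q (fun a b hab => hQ1 a b (by omega))]
      rcases N with _ | N
      · rw [cu_xx_zero, cu_yy_zero, add_zero]
      · rw [cu_xx_succ, cu_yy_succ]
        have h1 : cc (N + 1) N Q = 0 := by
          refine cu_left Q (2 * N + 1) (N + 1) (fun m n hmn hn => ?_) N (N + 1) (by omega)
            (by omega)
          rw [← cu_kappa m n Q (fun a b hab => hQ1 a b (by omega)), hD,
            h m n (by omega) (by omega), sub_self, zero_div]
        have h2 : cc N (N + 1) Q = 0 := by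
          refine cu_right Q (2 * N + 1) (N + 1) (fun m n hmn hn => ?_) N (N + 1) (by omega)
            (by omega)
          rw [← cu_kappa m n Q (fun a b hab => hQ1 a b (by omega)), hD,
            h m n (by omega) (by omega), sub_self, zero_div]
        rw [h1, h2, add_zero]
    rw [hD, div_eq_zero_iff] at hfin
    rcases hfin with h3 | h3
    · exact sub_eq_zero.1 h3
    · exfalso
      have : ((N.factorial : ℚ) * (N.factorial : ℚ)) ≠ 0 := by positivity
      exact this h3

end RegBool
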