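import Pool.Agent.Lib.MP_8251dc_co.Curve.CPos
import Pool.Agent.Lib.MP_8251dc_co.Curve.CUniq
import Pool.Agent.Lib.MP_8251dc_co.Curve.CHit
import Pool.Agent.Lib.MP_8251dc_co.Curve.CPow

set_option autoImplicit false

open Finset

namespace RegBool

/-- No terms of degree less than `k`. -/
def Ord (k : ℕ) (F : PS) : Prop := ∀ m n, m + n < k → cc m n F = 0

theorem cc_zero (m n : ℕ) : cc m n 0 = 0 := by simp [cc]

theorem cc_one (m n : ℕ) : cc m n 1 = if m = 0 ∧ n = 0 then 1 else 0 := by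
  unfold cc
  rw [PowerSeries.coeff_one]
  by_cases hn : n = 0
  · subst hn
    rw [if_pos rfl, PowerSeries.coeff_one]
    by_cases hm : m = 0 <;> simp [hm]
  · rw [if_neg hn, if_neg (fun h => hn h.2)]
    simp

theorem cc_sum {ι : Type*} (s : Finset ι) (f : ι → PS) (m n : ℕ) :
    cc m n (∑ i ∈ s, f i) = ∑ i ∈ s, cc m n (f i) := by
  simp [cc, map_sum]

theorem Ord_mul {k l : ℕ} {F G : PS} (hF : Ord k F) (hG : Ord l G) : Ord (k + l) (F * G) := by
  intro m n h
  rw [cc_mul]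
  refine sum_eq_zero fun b hb => sum_eq_zero fun a ha => ?_
  rw [HasAntidiagonal.mem_antidiagonal] at ha hb
  by_cases h1 : a.1 + b.1 < k
  · rw [hF _ _ h1, zero_mul]
  · rw [hG _ _ (by omega), mul_zero]

theorem Ord_of_le {k l : ℕ} {F : PS} (hF : Ord k F) (h : l ≤ k) : Ord l F :=
  fun m n h1 => hF m n (by omega)

theorem Ord_nil (F : PS) : Ord 0 F := fun m n h => absurd h (by omega)

theorem Ord_mul_left {k : ℕ} {G : PS} (F : PS) (hG : Ord k G) : Ord k (F * G) := by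
  have := Ord_mul (Ord_nil F) hG
  rwa [zero_add] at this

theorem Ord_pow {F : PS} (hF : Ord 1 F) (i : ℕ) : Ord i (F ^ i) := by
  induction i with
  | zero => exact Ord_nil _
  | succ i ih => rw [pow_succ]; exact Ord_mul ih hF

theorem Ord_sum {ι : Type*} {k : ℕ} (s : Finset ι) (f : ι → PS) (h : ∀ i ∈ s, Ord k (f i)) :
    Ord k (∑ i ∈ s, f i) := by
  intro m n hmn
  rw [cc_sum]
  exact sum_eq_zero fun i hi => h i hi m n hmn

theorem Ord_S : Ord 1 (-(xx + yy)) := by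
  intro m n h
  obtain ⟨rfl, rfl⟩ : m = 0 ∧ n = 0 := by omega
  simp [cc, xx, yy]

theorem Ord_W : Ord 1 ((1 - ex) * (1 - ey)) := by
  intro m n h
  obtain ⟨rfl, rfl⟩ : m = 0 ∧ n = 0 := by omega
  simp [cc, ex, ey]

theorem Ord_kappa : Ord 1 kappa := by
  intro m n h
  obtain ⟨rfl, rfl⟩ : m = 0 ∧ n = 0 := by omega
  simp [cc, kappa, xx, yy, ex, ey]

/-- A constant. -/
noncomputable def kk (a : ℚ) : PS := PowerSeries.C (PowerSeries.C a)

theorem cc_kk (a : ℚ) (m n : ℕ) (F : PS) : cc m n (kk a * F) = a * cc m n F := by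
  simp [cc, kk]

theorem cc_neg_pow (m n r : ℕ) (E : PS) :
    cc m n (E * (-(xx + yy)) ^ r) = (-1) ^ r * cc m n (E * (xx + yy) ^ r) := by
  have h1 : E * (-(xx + yy)) ^ r = kk ((-1) ^ r) * (E * (xx + yy) ^ r) := by
    rw [neg_pow]
    have h2 : kk ((-1) ^ r) = (-1) ^ r := by simp [kk]
    rw [h2]
    ring
  rw [h1, cc_kk]

/-- The truncated quotients. -/
noncomputable def QT (T : ℕ) : PS :=
  ∑ r ∈ range T, ∑ p ∈ posets r, kk ((r.factorial : ℚ)⁻¹) * ((px * py) ^ (downs p) *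
    ∑ i ∈ range r, ((1 - ex) * (1 - ey)) ^ i * (-(xx + yy)) ^ (r - 1 - i))

theorem kappa_QT (T : ℕ) : kappa * QT T =
    ∑ r ∈ range T, ∑ p ∈ posets r, kk ((r.factorial : ℚ)⁻¹) *
      ((px * py) ^ (downs p) * ((1 - ex) * (1 - ey)) ^ r - (px * py) ^ (downs p) *
        (-(xx + yy)) ^ r) := by
  unfold QT
  rw [mul_sum]
  refine sum_congr rfl fun r _ => ?_
  rw [mul_sum]
  refine sum_congr rfl fun p _ => ?_
  have h1 := geom_sum₂_mul ((1 - ex) * (1 - ey)) (-(xx + yy)) r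
  have h2 : kappa = (1 - ex) * (1 - ey) - -(xx + yy) := by
    unfold kappa
    ring
  rw [← mul_sub, ← h1, h2]
  ring

theorem alt_fact (N : ℕ) : ∑ r ∈ range (N + 1), (r.factorial : ℚ)⁻¹ * ((-1) ^ r *
    ((M r (N - r) : ℚ) / ((N - r).factorial : ℚ))) = if N = 0 then 1 else 0 := by
  rcases Nat.eq_zero_or_pos N with rfl | hN
  · have h1 : M 0 0 = 1 := by decide
    simp [h1]
  · rw [if_neg (by omega)]
    have h1 := congrArg (Int.cast (R := ℚ)) (alt_posets N hN)
    rw [← sum_range_reflect] at h1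
    push_cast at h1
    have h2 : (N.factorial : ℚ) ≠ 0 := by exact_mod_cast N.factorial_ne_zero
    have h3 : (-1 : ℚ) ^ N / (N.factorial : ℚ) ≠ 0 := div_ne_zero (pow_ne_zero _ (by norm_num)) h2
    have h4 : ∑ r ∈ range (N + 1), (r.factorial : ℚ)⁻¹ * ((-1) ^ r *
        ((M r (N - r) : ℚ) / ((N - r).factorial : ℚ))) = (-1 : ℚ) ^ N / (N.factorial : ℚ) *
        ∑ j ∈ range (N + 1), (-1 : ℚ) ^ (N - j) * (N.choose (N - j) : ℚ) *
          (M (N - (N - j)) (N - j) : ℚ) := by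
      rw [mul_sum]
      refine sum_congr rfl fun r hr => ?_
      have hr' : r ≤ N := Nat.lt_succ_iff.1 (mem_range.1 hr)
      rw [Nat.sub_sub_self hr', Nat.choose_symm hr', Nat.cast_choose ℚ hr']
      have h5 : (-1 : ℚ) ^ N * (-1) ^ (N - r) = (-1) ^ r := by
        obtain ⟨s, rfl⟩ := Nat.exists_eq_add_of_le hr'
        rw [Nat.add_sub_cancel_left, pow_add, mul_assoc, ← pow_add, ← two_mul, pow_mul]
        norm_num
      rw [← h5]
      field_simp
    rw [h4, h1, mul_zero]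

theorem cc_kappa_QT {m n T : ℕ} (h : m + n < T) : cc m n (kappa * QT T) =
    (R m n : ℚ) / ((m.factorial : ℚ) * (n.factorial : ℚ)) -
      (if m = 0 ∧ n = 0 then 1 else 0) := by
  rw [kappa_QT, cc_sum]
  have h1 : ∀ r ∈ range T, cc m n (∑ p ∈ posets r, kk ((r.factorial : ℚ)⁻¹) *
      ((px * py) ^ (downs p) * ((1 - ex) * (1 - ey)) ^ r - (px * py) ^ (downs p) *
        (-(xx + yy)) ^ r)) =
      (∑ p ∈ posets r, (hit m (downs p) r : ℚ) * (hit n (downs p) r : ℚ)) / (r.factorial : ℚ) /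
        ((m.factorial : ℚ) * (n.factorial : ℚ)) -
      (if r ≤ m + n then ((m + n).choose m : ℚ) * ((r.factorial : ℚ)⁻¹ * ((-1) ^ r *
        ((M r (m + n - r) : ℚ) / ((m + n - r).factorial : ℚ)))) else 0) := by
    intro r _
    rw [cc_sum]
    have h2 : ∀ p ∈ posets r, cc m n (kk ((r.factorial : ℚ)⁻¹) *
        ((px * py) ^ (downs p) * ((1 - ex) * (1 - ey)) ^ r - (px * py) ^ (downs p) *
        (-(xx + yy)) ^ r)) = (hit m (downs p) r : ℚ) * (hit n (downs p) r : ℚ) /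
        (r.factorial : ℚ) / ((m.factorial : ℚ) * (n.factorial : ℚ)) -
        (if r ≤ m + n then ((m + n).choose m : ℚ) * ((r.factorial : ℚ)⁻¹ * ((-1) ^ r *
        ((downs p : ℚ) ^ (m + n - r) / ((m + n - r).factorial : ℚ)))) else 0) := by
      intro p _
      rw [cc_kk, cc_sub, cc_hit, cc_neg_pow, cc_pow]
      split_ifs
      · ring
      · ring
    rw [sum_congr rfl h2, sum_sub_distrib, ← sum_div, ← sum_div]
    congr 1
    split_ifs
    · unfold M
      push_cast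
      rw [sum_div, mul_sum, mul_sum, mul_sum]
    · rw [sum_const_zero]
  rw [sum_congr rfl h1, sum_sub_distrib]
  congr 1
  · obtain ⟨t, rfl⟩ : ∃ t, T = t + 1 := ⟨T - 1, by omega⟩
    rw [← sum_div, R_formula' (t := t) (by omega)]
  · have h3 : ∑ r ∈ range T, (if r ≤ m + n then ((m + n).choose m : ℚ) *
        ((r.factorial : ℚ)⁻¹ * ((-1) ^ r * ((M r (m + n - r) : ℚ) /
          ((m + n - r).factorial : ℚ)))) else 0) =
        ∑ r ∈ range (m + n + 1), ((m + n).choose m : ℚ) *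
        ((r.factorial : ℚ)⁻¹ * ((-1) ^ r * ((M r (m + n - r) : ℚ) /
          ((m + n - r).factorial : ℚ)))) := by
      rw [← sum_filter]
      refine sum_congr (ext fun r => ?_) fun _ _ => rfl
      rw [mem_filter, mem_range, mem_range]
      omega
    rw [h3, ← mul_sum, alt_fact]
    by_cases h4 : m = 0 ∧ n = 0
    · obtain ⟨rfl, rfl⟩ := h4
      simp
    · rw [if_neg h4, if_neg (by omega), mul_zero]

theorem Ord_QT (r : ℕ) (E : PS) : Ord (r - 1) (E *
    ∑ i ∈ range r, ((1 - ex) * (1 - ey)) ^ i * (-(xx + yy)) ^ (r - 1 - i)) := by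
  refine Ord_mul_left _ (Ord_sum _ _ fun i hi => ?_)
  have h1 := Ord_mul (Ord_pow Ord_W i) (Ord_pow Ord_S (r - 1 - i))
  have h2 := mem_range.1 hi
  exact Ord_of_le h1 (by omega)

theorem QT_stab (m n : ℕ) : ∀ T, m + n + 2 ≤ T → cc m n (QT T) = cc m n (QT (m + n + 2)) := by
  intro T hT
  induction T, hT using Nat.le_induction with
  | base => rfl
  | succ T hT ih =>
    rw [← ih]
    unfold QT
    rw [sum_range_succ, cc_add]
    have h1 : Ord (T - 1) (∑ p ∈ posets T, kk ((T.factorial : ℚ)⁻¹) * ((px * py) ^ (downs p) *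
        ∑ i ∈ range T, ((1 - ex) * (1 - ey)) ^ i * (-(xx + yy)) ^ (T - 1 - i))) :=
      Ord_sum _ _ fun p _ => Ord_mul_left _ (Ord_QT _ _)
    rw [h1 m n (by omega), add_zero]

/-- The quotient. -/
noncomputable def QQ : PS :=
  PowerSeries.mk fun n => PowerSeries.mk fun m => cc m n (QT (m + n + 2))

theorem cc_QQ (m n : ℕ) : cc m n QQ = cc m n (QT (m + n + 2)) := by
  unfold QQ
  rw [cc, PowerSeries.coeff_mk, PowerSeries.coeff_mk]

theorem cc_kappa_QQ (m n : ℕ) : cc m n (kappa * QQ) = cc m n (kappa * QT (m + n + 1)) := by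
  have h1 : Ord (m + n) (QQ - QT (m + n + 1)) := by
    intro a b hab
    rw [cc_sub, cc_QQ, QT_stab a b (m + n + 1) (by omega), sub_self]
  have h2 := Ord_mul Ord_kappa h1 m n (by omega)
  rw [mul_sub, cc_sub] at h2
  exact sub_eq_zero.1 h2

/-- **The double generating function of the numbers of regular matrices is `1` modulo `κ`.** -/
theorem curve : kappa ∣ egf (fun m n => (R m n : ℚ)) - 1 := by
  refine ⟨QQ, PS_ext fun m n => ?_⟩
  rw [cc_kappa_QQ, cc_kappa_QT (by omega), cc_sub, cc_egf, cc_one]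

end RegBool
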