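import Pool.Agent.Lib.MP_8251dc_co.Curve.CDefs

set_option autoImplicit false

open Finset

namespace RegBool

namespace CP

/-- Partial orders. -/
def IsPo {α : Type} (p : α → α → Bool) : Prop :=
  (∀ i, p i i = true) ∧ (∀ i j, p i j = true → p j i = true → i = j) ∧
    ∀ i j k, p i j = true → p j k = true → p i k = true

/-- Down-sets. -/
def Dn {α : Type} (p : α → α → Bool) (S : Finset α) : Prop := ∀ i j, p i j = true → j ∈ S → i ∈ S

/-- The partial orders on `α` with a family of down-sets. -/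
noncomputable def MM (α β : Type) : ℕ :=
  Nat.card (Σ q : {q : α → α → Bool // IsPo q}, β → {S : Finset α // Dn q.1 S})

theorem M_eq (r k : ℕ) : M r k = MM (Fin r) (Fin k) := by
  classical
  unfold M MM
  have h1 : ∀ p : Fin r → Fin r → Bool, downs p = Nat.card {S : Finset (Fin r) // Dn p S} := by
    intro p
    unfold downs Dn
    rw [Nat.card_eq_fintype_card, Fintype.card_subtype]
  have hmem : ∀ p : Fin r → Fin r → Bool, p ∈ posets r ↔ IsPo p := fun p => by
    unfold posets IsPo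
    rw [Finset.mem_filter]
    exact ⟨fun h => h.2, fun h => ⟨Finset.mem_univ _, h⟩⟩
  rw [Nat.card_sigma, Finset.sum_subtype (posets r) hmem]
  refine Fintype.sum_equiv (Equiv.refl _) _ _ fun p => ?_
  rw [h1, Nat.card_fun, Nat.card_fin]
  rfl

/-- Transport of partial orders. -/
def poEquiv {α β : Type} (e : α ≃ β) :
    {p : α → α → Bool // IsPo p} ≃ {p : β → β → Bool // IsPo p} where
  toFun p := ⟨fun x y => p.1 (e.symm x) (e.symm y), fun _ => p.2.1 _,
    fun _ _ h1 h2 => e.symm.injective (p.2.2.1 _ _ h1 h2), fun _ _ _ h1 h2 => p.2.2.2 _ _ _ h1 h2⟩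
  invFun p := ⟨fun x y => p.1 (e x) (e y), fun _ => p.2.1 _,
    fun _ _ h1 h2 => e.injective (p.2.2.1 _ _ h1 h2), fun _ _ _ h1 h2 => p.2.2.2 _ _ _ h1 h2⟩
  left_inv p := Subtype.ext (by funext x y; simp)
  right_inv p := Subtype.ext (by funext x y; simp)

/-- Transport of down-sets. -/
def dnEquiv {α β : Type} (e : α ≃ β) (p : {p : α → α → Bool // IsPo p}) :
    {S : Finset α // Dn p.1 S} ≃ {S : Finset β // Dn (poEquiv e p).1 S} where
  toFun S := ⟨S.1.map e.toEmbedding, fun i j h1 h2 => by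
    rw [Finset.mem_map_equiv] at h2 ⊢
    exact S.2 _ _ h1 h2⟩
  invFun S := ⟨S.1.map e.symm.toEmbedding, fun i j h1 h2 => by
    rw [Finset.mem_map_equiv] at h2 ⊢
    rw [Equiv.symm_symm] at h2 ⊢
    refine S.2 _ _ ?_ h2
    change p.1 (e.symm (e i)) (e.symm (e j)) = true
    rw [Equiv.symm_apply_apply, Equiv.symm_apply_apply]
    exact h1⟩
  left_inv S := Subtype.ext (by ext x; simp)
  right_inv S := Subtype.ext (by ext x; simp)

/-- Transport. -/
theorem MM_congr {α α' β β' : Type} (e : α ≃ α') (f : β ≃ β') : MM α β = MM α' β' := by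
  unfold MM
  exact Nat.card_congr (Equiv.sigmaCongr (poEquiv e) fun p => Equiv.arrowCongr f (dnEquiv e p))

/-- The extension of a partial order by maximal points. -/
def mk {α β : Type} [DecidableEq α] [DecidableEq β] (q : α → α → Bool) (D : β → Finset α) :
    α ⊕ β → α ⊕ β → Bool
  | Sum.inl x, Sum.inl y => q x y
  | Sum.inl x, Sum.inr y => decide (x ∈ D y)
  | Sum.inr _, Sum.inl _ => false
  | Sum.inr x, Sum.inr y => decide (x = y)

/-- All points of `β` are maximal. -/
def Mx {α β : Type} (p : α ⊕ β → α ⊕ β → Bool) : Prop :=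
  ∀ (y : β) (z : α ⊕ β), p (Sum.inr y) z = true → z = Sum.inr y

theorem isPo_mk {α β : Type} [DecidableEq α] [DecidableEq β] {q : α → α → Bool} (hq : IsPo q)
    {D : β → Finset α} (hD : ∀ y, Dn q (D y)) : IsPo (mk q D) ∧ Mx (mk q D) := by
  refine ⟨⟨?_, ?_, ?_⟩, ?_⟩
  · rintro (x | x)
    · exact hq.1 x
    · simp [mk]
  · rintro (x | x) (y | y) h1 h2
    · rw [hq.2.1 x y h1 h2]
    · simp [mk] at h2
    · simp [mk] at h1
    · simp only [mk, decide_eq_true_eq] at h1
      rw [h1]
  · rintro (x | x) (y | y) (z | z) h1 h2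
    · exact hq.2.2 x y z h1 h2
    · simp only [mk, decide_eq_true_eq] at h1 h2 ⊢
      exact hD z x y h1 h2
    · simp [mk] at h2
    · simp only [mk, decide_eq_true_eq] at h1 h2 ⊢
      rwa [← h2]
    · simp [mk] at h1
    · simp [mk] at h1
    · simp [mk] at h2
    · simp only [mk, decide_eq_true_eq] at h1 h2 ⊢
      rw [h1, h2]
  · rintro y (z | z) h
    · simp [mk] at h
    · simp only [mk, decide_eq_true_eq] at h
      rw [h]

/-- Partial orders with given maximal points. -/
def extEquiv (α β : Type) [Fintype α] [DecidableEq α] [DecidableEq β] :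
    {p : α ⊕ β → α ⊕ β → Bool // IsPo p ∧ Mx p} ≃
      Σ q : {q : α → α → Bool // IsPo q}, (β → {S : Finset α // Dn q.1 S}) where
  toFun p := ⟨⟨fun x y => p.1 (Sum.inl x) (Sum.inl y), fun _ => p.2.1.1 _,
      fun _ _ h1 h2 => Sum.inl_injective (p.2.1.2.1 _ _ h1 h2),
      fun _ _ _ h1 h2 => p.2.1.2.2 _ _ _ h1 h2⟩,
    fun y => ⟨Finset.univ.filter fun x => p.1 (Sum.inl x) (Sum.inr y) = true,
      fun i j h1 h2 => by
        rw [Finset.mem_filter] at h2 ⊢
        exact ⟨Finset.mem_univ _, p.2.1.2.2 _ _ _ h1 h2.2⟩⟩⟩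
  invFun s := ⟨mk s.1.1 fun y => (s.2 y).1, isPo_mk s.1.2 fun y => (s.2 y).2⟩
  left_inv p := by
    refine Subtype.ext ?_
    funext a b
    rcases a with x | x <;> rcases b with y | y
    · rfl
    · simp [mk]
    · show false = p.1 (Sum.inr x) (Sum.inl y)
      rcases h : p.1 (Sum.inr x) (Sum.inl y)
      · rfl
      · exact absurd (p.2.2 x _ h) (by simp)
    · show decide (x = y) = p.1 (Sum.inr x) (Sum.inr y)
      by_cases hxy : x = y
      · rw [hxy, p.2.1.1]
        simp
      · rcases h : p.1 (Sum.inr x) (Sum.inr y)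
        · simp [hxy]
        · exact absurd (Sum.inr_injective (p.2.2 x _ h)).symm hxy
  right_inv s := by
    obtain ⟨⟨q, hq⟩, D⟩ := s
    refine Sigma.ext rfl (heq_of_eq ?_)
    funext y
    refine Subtype.ext ?_
    ext x
    simp [mk]

open Classical in
/-- The maximal points. -/
noncomputable def mx {n : ℕ} (p : Fin n → Fin n → Bool) : Finset (Fin n) :=
  Finset.univ.filter fun i => ∀ j, p i j = true → j = i

theorem mx_nonempty {n : ℕ} (hn : 0 < n) {p : Fin n → Fin n → Bool} (hp : IsPo p) :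
    (mx p).Nonempty := by
  classical
  have : Nonempty (Fin n) := ⟨⟨0, hn⟩⟩
  obtain ⟨i, -, hi⟩ := Finset.exists_max_image (Finset.univ : Finset (Fin n))
    (fun i => (Finset.univ.filter fun j => p j i = true).card) Finset.univ_nonempty
  refine ⟨i, Finset.mem_filter.2 ⟨Finset.mem_univ _, fun j hj => ?_⟩⟩
  by_contra hne
  have h1 := hi j (Finset.mem_univ j)
  refine absurd h1 (not_le.2 (Finset.card_lt_card ?_))
  rw [Finset.ssubset_iff_subset_ne]
  constructor
  · intro l hl
    rw [Finset.mem_filter] at hl ⊢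
    exact ⟨hl.1, hp.2.2 _ _ _ hl.2 hj⟩
  · intro h2
    have h3 : j ∈ Finset.univ.filter fun l => p l j = true :=
      Finset.mem_filter.2 ⟨Finset.mem_univ _, hp.1 j⟩
    rw [← h2, Finset.mem_filter] at h3
    exact hne (hp.2.1 _ _ h3.2 hj)

/-- Partial orders in which the points of `K` are maximal. -/
noncomputable def maxEquiv {n : ℕ} (K : Finset (Fin n)) (e : {x // x ∉ K} ⊕ {x // x ∈ K} ≃ Fin n)
    (he : ∀ y, e (Sum.inr y) = y.1) : {p : Fin n → Fin n → Bool // IsPo p ∧ K ⊆ mx p} ≃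
      {p : {x // x ∉ K} ⊕ {x // x ∈ K} → {x // x ∉ K} ⊕ {x // x ∈ K} → Bool // IsPo p ∧ Mx p} where
  toFun p := ⟨fun x y => p.1 (e x) (e y), ⟨fun _ => p.2.1.1 _,
    fun _ _ h1 h2 => e.injective (p.2.1.2.1 _ _ h1 h2), fun _ _ _ h1 h2 => p.2.1.2.2 _ _ _ h1 h2⟩,
    fun y z h => by
      have h1 : e (Sum.inr y) ∈ mx p.1 := p.2.2 (by rw [he]; exact y.2)
      exact e.injective ((Finset.mem_filter.1 h1).2 _ h)⟩
  invFun p := ⟨fun x y => p.1 (e.symm x) (e.symm y), ⟨fun _ => p.2.1.1 _,
    fun _ _ h1 h2 => e.symm.injective (p.2.1.2.1 _ _ h1 h2),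
    fun _ _ _ h1 h2 => p.2.1.2.2 _ _ _ h1 h2⟩, fun i hi => by
      refine Finset.mem_filter.2 ⟨Finset.mem_univ _, fun j h => ?_⟩
      have h1 : e.symm i = Sum.inr ⟨i, hi⟩ := by
        rw [Equiv.symm_apply_eq, he]
      have h' : p.1 (e.symm i) (e.symm j) = true := h
      rw [h1] at h'
      have h2 := p.2.2 _ _ h'
      rw [← h1] at h2
      exact e.symm.injective h2⟩
  left_inv p := Subtype.ext (by funext x y; simp)
  right_inv p := Subtype.ext (by funext x y; simp)

theorem card_max {n : ℕ} (K : Finset (Fin n)) :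
    ((posets n).filter fun p => K ⊆ mx p).card = M (n - K.card) K.card := by
  classical
  let e : {x // x ∉ K} ⊕ {x // x ∈ K} ≃ Fin n :=
    (Equiv.sumComm _ _).trans (Equiv.sumCompl fun x => x ∈ K)
  have h1 : ((posets n).filter fun p => K ⊆ mx p).card =
      Nat.card {p : Fin n → Fin n → Bool // IsPo p ∧ K ⊆ mx p} := by
    rw [Nat.card_eq_fintype_card, Fintype.card_subtype]
    congr 1
    ext p
    rw [Finset.mem_filter, Finset.mem_filter]
    unfold posets IsPo
    rw [Finset.mem_filter]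
    tauto
  have hc : Kᶜ.card = n - K.card := by
    rw [Finset.card_compl, Fintype.card_fin]
  have f : {x // x ∉ K} ≃ Fin (n - K.card) :=
    ((Equiv.subtypeEquivRight fun x => by simp).trans Kᶜ.equivFin).trans (finCongr hc)
  rw [h1, Nat.card_congr (maxEquiv K e fun y => rfl), Nat.card_congr (extEquiv _ _), M_eq]
  exact MM_congr f K.equivFin

end CP

open CP in
/-- Inclusion-exclusion over sets `K` of maximal points: `∑_k (-1)^k C(n,k) M(n-k,k) = 0` for
`n ≥ 1`. -/
theorem alt_posets (n : ℕ) (hn : 0 < n) :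
    ∑ k ∈ range (n + 1), (-1 : ℤ) ^ k * (n.choose k : ℤ) * (M (n - k) k : ℤ) = 0 := by
  classical
  have h1 : ∑ K : Finset (Fin n), (-1 : ℤ) ^ K.card * (M (n - K.card) K.card : ℤ) =
      ∑ k ∈ range (n + 1), (-1 : ℤ) ^ k * (n.choose k : ℤ) * (M (n - k) k : ℤ) := by
    have h2 := Finset.sum_powerset_apply_card (fun k => (-1 : ℤ) ^ k * (M (n - k) k : ℤ))
      (x := (Finset.univ : Finset (Fin n)))
    rw [Finset.powerset_univ, Finset.card_univ, Fintype.card_fin] at h2
    rw [h2]
    refine Finset.sum_congr rfl fun k _ => ?_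
    rw [nsmul_eq_mul]
    ring
  rw [← h1]
  have h3 : ∀ K : Finset (Fin n), (M (n - K.card) K.card : ℤ) =
      ∑ p ∈ posets n, if K ⊆ mx p then 1 else 0 := by
    intro K
    rw [← card_max K, Finset.card_filter]
    push_cast
    rfl
  simp only [h3, Finset.mul_sum]
  rw [Finset.sum_comm]
  refine Finset.sum_eq_zero fun p hp => ?_
  have hp' : IsPo p := (Finset.mem_filter.1 hp).2
  have h4 := Finset.sum_powerset_neg_one_pow_card_of_nonempty (mx_nonempty hn hp')
  refine Eq.trans ?_ h4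
  simp only [mul_ite, mul_one, mul_zero]
  rw [← Finset.sum_filter]
  refine Finset.sum_congr ?_ fun _ _ => rfl
  ext K
  simp

end RegBool
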